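import Mathlib
import Pool.Agent.Work.MP_12b649_co.Bd.B03
import Pool.Agent.Work.MP_12b649_co.Bd.B04

/-!
# Derangement representation number of graphs of odd order

`drn G ≤ |V(G)|` for every graph of odd order and every complete multipartite graph of any order,
apart from the three exceptional graphs of the problem; `drn G ≤ |V(G)| + 1` for every graph of
even order.
-/

namespace Pool.Agent.Work.MP_12b649_co.Kept.OddOrder

universe u

/-- `π` is a derangement `k`-representation of the graph `G`: an injective map to the symmetric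
group such that distinct `u, v` are adjacent iff `π u i ≠ π v i` for all `i`. -/
def IsRep {V : Type u} (G : SimpleGraph V) {k : ℕ} (π : V → Equiv.Perm (Fin k)) : Prop :=
  Function.Injective π ∧ ∀ u v, u ≠ v → (G.Adj u v ↔ ∀ i, π u i ≠ π v i)

/-- The derangement representation number: the least positive `k` such that `G` has a derangement
`k`-representation. -/
noncomputable def drn {V : Type u} (G : SimpleGraph V) : ℕ :=
  sInf {k | 0 < k ∧ ∃ π : V → Equiv.Perm (Fin k), IsRep G π}

/-- Let `G` be a finite graph with at least one vertex.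
1. If `|V(G)|` is odd, or `G` is complete multipartite (non-adjacency is transitive), and `G` is
not one of the three exceptional graphs (two or three isolated vertices, the path on three
vertices), then `drn G ≤ |V(G)|`.
2. If `|V(G)|` is even then `drn G ≤ |V(G)| + 1`.
3. For every odd `N > |V(G)|` there is a derangement `N`-representation. -/
theorem result (V : Type u) [Finite V] [Nonempty V] (G : SimpleGraph V) :
    ((Odd (Nat.card V) ∨ ∀ a b c, ¬ G.Adj a b → ¬ G.Adj b c → ¬ G.Adj a c) →
      ¬ Nonempty (G ≃g (⊥ : SimpleGraph (Fin 2))) →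
      ¬ Nonempty (G ≃g (⊥ : SimpleGraph (Fin 3))) →
      ¬ Nonempty (G ≃g SimpleGraph.pathGraph 3) →
      drn G ≤ Nat.card V) ∧
    (Even (Nat.card V) → drn G ≤ Nat.card V + 1) ∧
    (∀ N : ℕ, Odd N → Nat.card V < N → ∃ π : V → Equiv.Perm (Fin N), IsRep G π) := by
  have h3 : ∀ N : ℕ, Odd N → Nat.card V < N → ∃ π : V → Equiv.Perm (Fin N), IsRep G π :=
    fun N hN hlt => Pool.Agent.Work.MP_12b649_co.Odd.rep_of_lt V G N hN hlt
  refine ⟨fun hG h0 h1 h2 => ?_, fun he => ?_, h3⟩
  · exact Nat.sInf_le ⟨Nat.card_pos, Pool.Agent.Work.MP_12b649_co.Odd.final_of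
      Pool.Agent.Work.MP_12b649_co.Odd.thm_fat
      (Pool.Agent.Work.MP_12b649_co.Odd.thm_multi Pool.Agent.Work.MP_12b649_co.Odd.thm_pack
        Pool.Agent.Work.MP_12b649_co.Odd.thm_block) V G hG h0 h1 h2⟩
  · exact Nat.sInf_le ⟨Nat.succ_pos _, h3 _ he.add_one (Nat.lt_succ_self _)⟩

end Pool.Agent.Work.MP_12b649_co.Kept.OddOrder
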